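import Mathlib

namespace Pool.Agent.Lib.MP_a2b538_an.L1

open Finset

variable {F : Type} [Field F] [Fintype F] [DecidableEq F] {n : ℕ}

/-- a nontrivial real character of a field of characteristic two -/
structure Sgn (ψ : F → ℝ) : Prop where
  add : ∀ x y, ψ (x + y) = ψ x * ψ y
  zero : ψ 0 = 1
  two : ∀ x : F, x + x = 0
  neg : ∃ x, ψ x = -1

/-- the steps of the walk -/
def gen (n : ℕ) (p : F × F) : Fin n → F := fun i => p.2 * p.1 ^ (i : ℕ)

/-- the standard bilinear form -/
def dot (ξ x : Fin n → F) : F := ∑ i, ξ i * x i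

variable {ψ : F → ℝ}

omit [Fintype F] [DecidableEq F] in
theorem Sgn.abs_eq (h : Sgn ψ) (x : F) : |ψ x| = 1 := by
  have : ψ x * ψ x = 1 := by rw [← h.add, h.two, h.zero]
  rcases mul_self_eq_one_iff.1 this with e | e <;> simp [e]

theorem Sgn.sum_mul (h : Sgn ψ) (c : F) :
    ∑ b, ψ (b * c) = if c = 0 then (Fintype.card F : ℝ) else 0 := by
  split_ifs with hc
  · simp [hc, h.zero]
  · obtain ⟨x, hx⟩ := h.neg
    have e := Equiv.sum_comp (Equiv.addRight (x / c)) fun b => ψ (b * c)
    simp only [Equiv.coe_addRight, add_mul, div_mul_cancel₀ x hc, h.add, hx, mul_neg, mul_one,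
      sum_neg_distrib] at e
    linarith

omit [Fintype F] [DecidableEq F] in
theorem dot_add (ξ x y : Fin n → F) : dot ξ (x + y) = dot ξ x + dot ξ y := by
  simp [dot, mul_add, sum_add_distrib]

theorem Sgn.sum_dot (h : Sgn ψ) (w : Fin n → F) :
    ∑ ξ, ψ (dot ξ w) = if w = 0 then (Fintype.card (Fin n → F) : ℝ) else 0 := by
  split_ifs with hw
  · simp [hw, dot, h.zero]
  · obtain ⟨x, hx⟩ := h.neg
    obtain ⟨i, hi⟩ := Function.ne_iff.1 hw
    have e := Equiv.sum_comp (Equiv.addRight (Pi.single i (x / w i) : Fin n → F))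
      fun ξ => ψ (dot ξ w)
    have e2 : ∀ ξ : Fin n → F, dot (ξ + Pi.single i (x / w i)) w = dot ξ w + x := fun ξ => by
      simp [dot, add_mul, sum_add_distrib, Pi.single_apply, div_mul_cancel₀ x hi]
    simp only [Equiv.coe_addRight, e2, h.add, hx, mul_neg, mul_one, sum_neg_distrib] at e
    linarith

theorem Sgn.wk (h : Sgn ψ) (f : (Fin n → F) → ℝ) (z : Fin n → F) :
    ∑ ξ, (∑ x, ψ (dot ξ x) * f x) ^ 2 * ψ (dot ξ z) =
      Fintype.card (Fin n → F) * ∑ x, f x * f (x + z) := by
  have e1 : ∀ ξ, (∑ x, ψ (dot ξ x) * f x) ^ 2 * ψ (dot ξ z) =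
      ∑ x, ∑ y, f x * f y * ψ (dot ξ (x + z + y)) := fun ξ => by
    rw [sq, sum_mul_sum, Finset.sum_mul]
    refine sum_congr rfl fun x _ => ?_
    rw [Finset.sum_mul]
    refine sum_congr rfl fun y _ => ?_
    rw [dot_add, dot_add, h.add, h.add]
    ring
  have e2 : ∀ u y : Fin n → F, u + y = 0 ↔ y = u := fun u y => by
    have : u + u = 0 := funext fun i => h.two (u i)
    exact ⟨fun e => add_left_cancel (e.trans this.symm), fun e => e ▸ this⟩
  simp only [e1]
  rw [sum_comm, mul_sum]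
  refine sum_congr rfl fun x _ => ?_
  rw [sum_comm]
  simp only [← mul_sum, h.sum_dot, e2, mul_ite, mul_zero, sum_ite_eq', mem_univ, if_true]
  ring

theorem card_roots (c : F) (ξ : Fin n → F) (hc : ¬ (c = 0 ∧ ξ = 0)) :
    (univ.filter fun a : F => c * a ^ n + ∑ i, ξ i * a ^ (i : ℕ) = 0).card ≤ n := by
  by_contra hlt
  let Q : Polynomial F := Polynomial.monomial n c + ∑ i : Fin n, Polynomial.monomial i (ξ i)
  have hd : Q.natDegree ≤ n := by
    refine Polynomial.natDegree_add_le_of_degree_le (Polynomial.natDegree_monomial_le _) ?_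
    exact Polynomial.natDegree_sum_le_of_forall_le _ _ fun i _ =>
      (Polynomial.natDegree_monomial_le _).trans i.2.le
  have h0 : Q = 0 := Polynomial.eq_zero_of_natDegree_lt_card_of_eval_eq_zero' Q _
    (fun a ha => by
      simpa [Q, Polynomial.eval_finsetSum] using (mem_filter.1 ha).2) (hd.trans_lt (not_le.1 hlt))
  refine hc ⟨?_, funext fun i => ?_⟩
  · have := congrArg (fun P => Polynomial.coeff P n) h0
    simpa [Q, Polynomial.coeff_monomial, fun i : Fin n => i.2.ne] using this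
  · have := congrArg (fun P => Polynomial.coeff P i) h0
    simpa [Q, Polynomial.coeff_monomial, i.2.ne', Fin.val_inj] using this

theorem Sgn.form (h : Sgn ψ) (c : F) (f : (Fin n → F) → ℝ) (hf : c = 0 → ∑ x, f x = 0) :
    ∑ x, f x * ∑ p : F × F, ψ (p.2 * (c * p.1 ^ n)) * f (x + gen n p) ≤
      Fintype.card F * n * ∑ x, f x ^ 2 := by
  have hN : (0 : ℝ) < Fintype.card (Fin n → F) := by exact_mod_cast Fintype.card_pos
  refine le_of_mul_le_mul_left ?_ hN
  have e1 : (Fintype.card (Fin n → F) : ℝ) *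
      ∑ x, f x * ∑ p : F × F, ψ (p.2 * (c * p.1 ^ n)) * f (x + gen n p) =
      ∑ ξ, (∑ x, ψ (dot ξ x) * f x) ^ 2 *
        ∑ p : F × F, ψ (p.2 * (c * p.1 ^ n + ∑ i, ξ i * p.1 ^ (i : ℕ))) := by
    have a1 : ∀ (ξ : Fin n → F) (p : F × F), ψ (p.2 * (c * p.1 ^ n + ∑ i, ξ i * p.1 ^ (i : ℕ))) =
        ψ (p.2 * (c * p.1 ^ n)) * ψ (dot ξ (gen n p)) := fun ξ p => by
      rw [← h.add, mul_add, mul_sum]
      congr 2
      exact sum_congr rfl fun i _ => by simp only [gen]; ring
    simp only [a1, mul_sum]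
    rw [sum_comm, sum_comm (s := (univ : Finset (Fin n → F))) (t := (univ : Finset (F × F)))]
    refine sum_congr rfl fun p _ => ?_
    have a2 := congrArg (ψ (p.2 * (c * p.1 ^ n)) * ·) (h.wk f (gen n p))
    simp only [mul_sum] at a2
    refine Eq.trans (sum_congr rfl fun x _ => by ring) (a2.symm.trans ?_)
    exact sum_congr rfl fun ξ _ => by ring
  have e2 := h.wk f 0
  simp only [dot, Pi.zero_apply, mul_zero, sum_const_zero, h.zero, mul_one, add_zero] at e2
  rw [e1, mul_left_comm]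
  simp only [sq (f _)]
  rw [← e2, mul_sum]
  refine sum_le_sum fun ξ _ => ?_
  by_cases hc : c = 0 ∧ ξ = 0
  · simp [hc.2, dot, h.zero, hf hc.1]
  · rw [mul_comm]
    refine mul_le_mul_of_nonneg_right ?_ (sq_nonneg _)
    rw [Fintype.sum_prod_type]
    simp only [h.sum_mul]
    rw [← sum_filter, sum_const, nsmul_eq_mul, mul_comm]
    exact mul_le_mul_of_nonneg_left (by exact_mod_cast card_roots c ξ hc) (Nat.cast_nonneg _)

omit [DecidableEq F] in
theorem vander (c : F → F) (hc : (Function.support c).ncard ≤ n)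
    (h0 : ∀ i : Fin n, ∑ a, c a * a ^ (i : ℕ) = 0) : c = 0 := by
  classical
  let s := (Function.support c).toFinset
  have hs : s.card ≤ n := by rwa [Set.ncard_eq_toFinset_card'] at hc
  let e := s.equivFin.symm
  have h1 := Matrix.eq_zero_of_forall_pow_sum_mul_pow_eq_zero (f := fun j => (e j : F))
    (v := fun j => c (e j)) (Subtype.val_injective.comp e.injective) fun i => by
      rw [e.sum_comp fun a : s => c a * (a : F) ^ (i : ℕ), sum_coe_sort s fun a => c a * a ^ (i : ℕ),
        sum_subset (subset_univ s) fun a _ ha => by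
          have : c a = 0 := by simpa [s] using ha
          simp [this]]
      exact h0 ⟨i, i.2.trans_le hs⟩
  funext a
  by_contra ha
  have := congrFun h1 (e.symm ⟨a, by simpa [s] using ha⟩)
  simp only [Equiv.apply_symm_apply] at this
  exact ha this

end Pool.Agent.Lib.MP_a2b538_an.L1
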