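import Mathlib

namespace Pool.Agent.Lib.MP_a2b538_an.L1

open Finset

variable {𝕜 : Type} [RCLike 𝕜] {V : Type} [Fintype V] [DecidableEq V]

/-- the sum of the moduli of the coordinates -/
noncomputable def N1 (a : V → 𝕜) : ℝ := ∑ v, ‖a v‖

/-- restriction to a finite set -/
def cut (A : Finset V) (a : V → 𝕜) : V → 𝕜 := fun v => if v ∈ A then a v else 0

/-- a contraction for the sum norm and the sup norm whose quadratic form is at most one half -/
structure Con (S : (V → 𝕜) →ₗ[𝕜] (V → 𝕜)) : Prop where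
  one : ∀ a, N1 (S a) ≤ N1 a
  top : ∀ (a : V → 𝕜) (t : ℝ), (∀ v, ‖a v‖ ≤ t) → ∀ v, ‖S a v‖ ≤ t
  two : ∀ a : V → 𝕜, ∑ v, RCLike.re ((starRingEnd 𝕜) (a v) * S a v) ≤ 1 / 2 * ∑ v, ‖a v‖ ^ 2

omit [DecidableEq V] in
theorem N1_nonneg (a : V → 𝕜) : 0 ≤ N1 a := sum_nonneg fun _ _ => norm_nonneg _

omit [DecidableEq V] in
theorem N1_add_le (a b : V → 𝕜) : N1 (a + b) ≤ N1 a + N1 b := by
  rw [N1, N1, N1, ← sum_add_distrib]
  exact sum_le_sum fun v _ => norm_add_le _ _

omit [DecidableEq V] in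
theorem N1_sub_le (a b : V → 𝕜) : N1 (a - b) ≤ N1 a + N1 b := by
  rw [N1, N1, N1, ← sum_add_distrib]
  exact sum_le_sum fun v _ => norm_sub_le _ _

omit [DecidableEq V] in
theorem pair_le {c z : V → 𝕜} {t : ℝ} (hc : ∀ v, ‖c v‖ ≤ t) :
    |∑ v, RCLike.re ((starRingEnd 𝕜) (c v) * z v)| ≤ t * N1 z := by
  rw [N1, mul_sum]
  refine (abs_sum_le_sum_abs _ _).trans (sum_le_sum fun v _ => (RCLike.abs_re_le_norm _).trans ?_)
  rw [norm_mul, RCLike.norm_conj]
  exact mul_le_mul_of_nonneg_right (hc v) (norm_nonneg _)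

variable {S : (V → 𝕜) →ₗ[𝕜] (V → 𝕜)}

omit [DecidableEq V] in
theorem Con.up (h : Con S) (a : V → 𝕜) : N1 (a - S a) ≤ 2 * N1 a := by
  linarith [N1_sub_le a (S a), h.one a]

theorem Con.core (h : Con S) (a : V → 𝕜) (A : Finset V) {t : ℝ} (ht : 0 < t)
    (h1 : ∀ v ∈ A, t ≤ ‖a v‖) (h2 : ∀ v ∉ A, ‖a v‖ ≤ t) :
    t * A.card ≤ 2 * N1 (a - S a) ∧ N1 (cut A a - S (cut A a)) ≤ 14 * N1 (a - S a) := by
  let r : V → ℝ := fun v => if v ∈ A then t / ‖a v‖ else 1
  let c : V → 𝕜 := fun v => (r v : 𝕜) * a v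
  let b : V → 𝕜 := fun v => ((1 - r v : ℝ) : 𝕜) * a v
  have hab : a = c + b := by
    funext v
    simp only [c, b, Pi.add_apply]
    push_cast
    ring
  have hp : ∀ v ∈ A, 0 < ‖a v‖ := fun v hv => ht.trans_le (h1 v hv)
  have hcA : ∀ v ∈ A, ‖c v‖ = t := fun v hv => by
    simp only [c, r, if_pos hv, norm_mul, RCLike.norm_ofReal]
    rw [abs_of_pos (div_pos ht (hp v hv)), div_mul_cancel₀ _ (hp v hv).ne']
  have hc : ∀ v, ‖c v‖ ≤ t := fun v => by
    by_cases hv : v ∈ A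
    · exact (hcA v hv).le
    · simpa [c, r, hv] using h2 v hv
  have hb0 : ∀ v ∉ A, b v = 0 := fun v hv => by simp [b, r, hv]
  have hcb : ∀ v, RCLike.re ((starRingEnd 𝕜) (c v) * b v) = t * ‖b v‖ := fun v => by
    by_cases hv : v ∈ A
    · have e1 : (starRingEnd 𝕜) (c v) * b v = ((r v * (1 - r v) * ‖a v‖ ^ 2 : ℝ) : 𝕜) := by
        simp only [c, b, map_mul, RCLike.conj_ofReal]
        push_cast
        rw [← RCLike.conj_mul]
        ring
      have e2 : 0 ≤ 1 - r v := by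
        simp only [r, if_pos hv]
        rw [sub_nonneg, div_le_one (hp v hv)]
        exact h1 v hv
      rw [e1, RCLike.ofReal_re]
      simp only [b, norm_mul, RCLike.norm_ofReal, abs_of_nonneg e2]
      simp only [r, if_pos hv]
      have := (hp v hv).ne'
      field_simp
    · simp [hb0 v hv]
  set y := a - S a with hy
  have hy' : y = c + b - S c - S b := by
    rw [hy]
    conv_lhs => rw [hab, map_add]
    abel
  have w1 : ∑ v, RCLike.re ((starRingEnd 𝕜) (c v) * y v) =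
      ∑ v, ‖c v‖ ^ 2 + t * N1 b - ∑ v, RCLike.re ((starRingEnd 𝕜) (c v) * S c v) -
        ∑ v, RCLike.re ((starRingEnd 𝕜) (c v) * S b v) := by
    rw [N1, mul_sum, ← sum_add_distrib, ← sum_sub_distrib, ← sum_sub_distrib]
    refine sum_congr rfl fun v _ => ?_
    rw [hy', ← hcb v]
    simp only [Pi.sub_apply, Pi.add_apply, mul_sub, mul_add, map_sub, map_add, RCLike.conj_mul]
    norm_cast
  have w2 : t ^ 2 * A.card ≤ ∑ v, ‖c v‖ ^ 2 := by
    refine le_trans (le_of_eq ?_) (sum_le_sum_of_subset_of_nonneg (subset_univ A)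
      fun _ _ _ => by positivity)
    rw [sum_congr rfl fun v hv => by rw [hcA v hv]]
    simp [mul_comm]
  have w3 := (abs_le.1 (pair_le (z := y) hc)).2
  have w4 := (abs_le.1 (pair_le (z := S b) hc)).2
  have w5 := mul_le_mul_of_nonneg_left (h.one b) ht.le
  have w6 := h.two c
  have W : t * A.card ≤ 2 * N1 y := le_of_mul_le_mul_left (by nlinarith) ht
  refine ⟨W, ?_⟩
  have e1 : cut A a - S (cut A a) = (b - S b) + (cut A c - S (cut A c)) := by
    have : cut A a = b + cut A c := by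
      funext v
      by_cases hv : v ∈ A
      · simp only [cut, if_pos hv, Pi.add_apply]
        rw [congrFun hab v, Pi.add_apply, add_comm]
      · simp [cut, hv, hb0 v hv]
    rw [this, map_add]
    abel
  have g1 : N1 (cut A c) = t * A.card := by
    simp only [N1, cut, apply_ite (norm : 𝕜 → ℝ), norm_zero, sum_ite_mem, univ_inter]
    rw [sum_congr rfl hcA]
    simp [mul_comm]
  have g2 : ∑ v ∈ A, ‖(b - S b) v‖ ≤ N1 y + 2 * (t * A.card) := by
    have a1 : ∀ v ∈ A, ‖(b - S b) v‖ ≤ ‖y v‖ + 2 * t := fun v _ => by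
      have : (b - S b) v = y v - (c v - S c v) := by
        rw [hy']
        simp only [Pi.sub_apply, Pi.add_apply]
        ring
      rw [this]
      linarith [norm_sub_le (y v) (c v - S c v), norm_sub_le (c v) (S c v), hc v, h.top c t hc v]
    refine (sum_le_sum a1).trans ?_
    rw [sum_add_distrib, sum_const, nsmul_eq_mul]
    have : ∑ v ∈ A, ‖y v‖ ≤ N1 y :=
      sum_le_sum_of_subset_of_nonneg (subset_univ A) fun _ _ _ => norm_nonneg _
    linarith
  have g3 : ∑ v ∈ Aᶜ, ‖(b - S b) v‖ ≤ ∑ v ∈ A, ‖(b - S b) v‖ := by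
    have a1 : ∑ v ∈ Aᶜ, ‖(b - S b) v‖ = ∑ v ∈ Aᶜ, ‖S b v‖ :=
      sum_congr rfl fun v hv => by simp [hb0 v (mem_compl.1 hv)]
    have a2 : ∑ v ∈ A, ‖S b v‖ + ∑ v ∈ Aᶜ, ‖S b v‖ = N1 (S b) := sum_add_sum_compl _ _
    have a3 : N1 b = ∑ v ∈ A, ‖b v‖ :=
      (sum_subset (subset_univ A) fun v _ hv => by simp [hb0 v hv]).symm
    have a4 : ∑ v ∈ A, ‖b v‖ ≤ ∑ v ∈ A, ‖(b - S b) v‖ + ∑ v ∈ A, ‖S b v‖ := by
      rw [← sum_add_distrib]
      exact sum_le_sum fun v _ => by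
        simpa using norm_add_le (b v - S b v) (S b v)
    linarith [h.one b]
  have g4 : ∑ v ∈ A, ‖(b - S b) v‖ + ∑ v ∈ Aᶜ, ‖(b - S b) v‖ = N1 (b - S b) :=
    sum_add_sum_compl _ _
  rw [e1]
  linarith [N1_add_le (b - S b) (cut A c - S (cut A c)), h.up (cut A c)]

theorem Con.co (h : Con S) (a : V → 𝕜) (v : V) : ‖a v‖ ≤ 2 * N1 (a - S a) := by
  rcases (norm_nonneg (a v)).eq_or_lt with h0 | h0
  · linarith [N1_nonneg (a - S a)]
  · have h1 := (h.core a (univ.filter fun u => ‖a v‖ ≤ ‖a u‖) h0 (fun u hu => (mem_filter.1 hu).2)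
      fun u hu => le_of_not_ge fun c => hu (mem_filter.2 ⟨mem_univ _, c⟩)).1
    have h2 : (1 : ℝ) ≤ (univ.filter fun u => ‖a v‖ ≤ ‖a u‖).card := by
      have : 0 < (univ.filter fun u => ‖a v‖ ≤ ‖a u‖).card :=
        card_pos.2 ⟨v, mem_filter.2 ⟨mem_univ _, le_rfl⟩⟩
      exact_mod_cast this
    nlinarith

theorem Con.gr (h : Con S) (a : V → 𝕜) (A : Finset V)
    (hA : ∀ n ∈ A, ∀ k, k ∉ A → ‖a k‖ ≤ ‖a n‖) :
    N1 (cut A a - S (cut A a)) ≤ 14 * N1 (a - S a) := by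
  have h0 := N1_nonneg (a - S a)
  rcases A.eq_empty_or_nonempty with rfl | hne
  · have : cut ∅ a = 0 := by funext v; simp [cut]
    rw [this, map_zero, sub_zero]
    simp only [N1, Pi.zero_apply, norm_zero, sum_const_zero] at h0 ⊢
    linarith
  · obtain ⟨n, hn, hmin⟩ := A.exists_min_image (fun v => ‖a v‖) hne
    rcases (norm_nonneg (a n)).eq_or_lt with h1 | h1
    · have : cut A a = a := by
        funext v
        by_cases hv : v ∈ A
        · simp [cut, hv]
        · have := hA n hn v hv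
          rw [← h1, norm_le_zero_iff] at this
          simp [cut, hv, this]
      rw [this]
      linarith
    · exact (h.core a A h1 hmin (hA n hn)).2

theorem Con.inv (h : Con S) : ∃ R : (V → 𝕜) →L[𝕜] (V → 𝕜),
    (∀ a, R (a - S a) = a) ∧ ∀ y, R y - S (R y) = y := by
  have hi : Function.Injective (LinearMap.id - S : (V → 𝕜) →ₗ[𝕜] (V → 𝕜)) := by
    rw [injective_iff_map_eq_zero]
    intro a ha
    funext v
    have := h.co a v
    rw [show a - S a = 0 from ha] at this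
    simpa [N1] using this
  let E := LinearEquiv.ofInjectiveEndo _ hi
  exact ⟨LinearMap.toContinuousLinearMap E.symm.toLinearMap, fun a => E.symm_apply_apply a,
    fun y => E.apply_symm_apply y⟩

end Pool.Agent.Lib.MP_a2b538_an.L1
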