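import Mathlib
import Pool.Agent.Lib.MP_a2b538_an.L1.Weak
import Pool.Agent.Lib.MP_a2b538_an.L1.Four

namespace Pool.Agent.Lib.MP_a2b538_an.L1

open Finset

variable {𝕜 : Type} [RCLike 𝕜] {F : Type} [Field F] [Fintype F] [DecidableEq F] {n : ℕ}

/-- the probability of one step -/
noncomputable def wt (F : Type) [Fintype F] : ℝ := 1 / (Fintype.card F : ℝ) ^ 2

/-- the signed averaging operator -/
noncomputable def Sop (𝕜 : Type) [RCLike 𝕜] (ψ : F → ℝ) (n : ℕ) :
    ((Fin n → F) → 𝕜) →ₗ[𝕜] ((Fin n → F) → 𝕜) where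
  toFun a x := ∑ p : F × F, ((wt F * ψ (p.2 * p.1 ^ n) : ℝ) : 𝕜) * a (x + gen n p)
  map_add' a b := by funext x; simp [mul_add, sum_add_distrib]
  map_smul' c a := by funext x; simp [mul_sum, mul_left_comm]

/-- the distribution of the unsigned walk -/
noncomputable def pr (F : Type) [Field F] [Fintype F] [DecidableEq F] (n : ℕ) :
    ℕ → (Fin n → F) → ℝ
  | 0 => fun x => if x = 0 then 1 else 0
  | j + 1 => fun x => ∑ p : F × F, wt F * pr F n j (x + gen n p)

/-- points reached with at most `j` directions -/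
def Rep (j : ℕ) (c : F → F) (x : Fin n → F) : Prop :=
  (Function.support c).ncard ≤ j ∧ ∀ i : Fin n, x i = ∑ a, c a * a ^ (i : ℕ)

variable {ψ : F → ℝ}

omit [DecidableEq F] in
theorem Sop_apply (a : (Fin n → F) → 𝕜) (x : Fin n → F) : Sop 𝕜 ψ n a x =
    ∑ p : F × F, ((wt F * ψ (p.2 * p.1 ^ n) : ℝ) : 𝕜) * a (x + gen n p) := rfl

omit [DecidableEq F] in
theorem wt_pos : 0 < wt F := by
  have : (0 : ℝ) < Fintype.card F := by exact_mod_cast Fintype.card_pos
  unfold wt
  positivity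

omit [DecidableEq F] in
theorem wt_mul : wt F * (Fintype.card F : ℝ) ^ 2 = 1 := by
  have : (0 : ℝ) < Fintype.card F := by exact_mod_cast Fintype.card_pos
  unfold wt
  field_simp

omit [DecidableEq F] in
theorem sum_wt (t : ℝ) : ∑ _p : F × F, wt F * t = t := by
  rw [sum_const, card_univ, Fintype.card_prod, nsmul_eq_mul]
  push_cast
  linear_combination t * wt_mul (F := F)

omit [DecidableEq F] in
theorem sum_shift (g : (Fin n → F) → ℝ) (z : Fin n → F) : ∑ x, g (x + z) = ∑ x, g x :=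
  Equiv.sum_comp (Equiv.addRight z) g

theorem Sgn.con (h : Sgn ψ) (hn : 2 * n ≤ Fintype.card F) : Con (Sop 𝕜 ψ n) := by
  have b : ∀ (a : (Fin n → F) → 𝕜) x, ‖Sop 𝕜 ψ n a x‖ ≤ ∑ p : F × F, wt F * ‖a (x + gen n p)‖ :=
    fun a x => (norm_sum_le _ _).trans (sum_le_sum fun p _ => by
      rw [norm_mul, RCLike.norm_ofReal, abs_mul, h.abs_eq, mul_one, abs_of_pos wt_pos])
  refine ⟨fun a => ?_, fun a t ht x => ?_, fun a => ?_⟩
  · refine (sum_le_sum fun x _ => b a x).trans (le_of_eq ?_)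
    rw [sum_comm]
    simp only [← mul_sum, sum_shift fun x => ‖a x‖]
    rw [mul_sum]
    exact sum_wt _
  · exact (b a x).trans ((sum_le_sum fun p _ =>
      mul_le_mul_of_nonneg_left (ht _) wt_pos.le).trans (sum_wt t).le)
  · have f1 := h.form (n := n) 1 (fun x => RCLike.re (a x)) (fun e => absurd e one_ne_zero)
    have f2 := h.form (n := n) 1 (fun x => RCLike.im (a x)) (fun e => absurd e one_ne_zero)
    have e1 : ∑ x, RCLike.re ((starRingEnd 𝕜) (a x) * Sop 𝕜 ψ n a x) = wt F *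
        (∑ x, RCLike.re (a x) * ∑ p : F × F, ψ (p.2 * (1 * p.1 ^ n)) * RCLike.re (a (x + gen n p)) +
          ∑ x, RCLike.im (a x) *
            ∑ p : F × F, ψ (p.2 * (1 * p.1 ^ n)) * RCLike.im (a (x + gen n p))) := by
      rw [← sum_add_distrib, mul_sum]
      refine sum_congr rfl fun x _ => ?_
      rw [Sop_apply, mul_sum, map_sum, mul_sum, mul_sum, ← sum_add_distrib, mul_sum]
      refine sum_congr rfl fun p _ => ?_
      rw [mul_left_comm, RCLike.re_ofReal_mul, RCLike.mul_re, RCLike.conj_re, RCLike.conj_im,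
        one_mul]
      ring
    have e2 : ∑ x, ‖a x‖ ^ 2 = ∑ x, RCLike.re (a x) ^ 2 + ∑ x, RCLike.im (a x) ^ 2 := by
      rw [← sum_add_distrib]
      exact sum_congr rfl fun x _ => by rw [RCLike.norm_sq_eq_def]; ring
    have e3 : wt F * (Fintype.card F * n) ≤ 1 / 2 := by
      have a1 : (2 * n : ℝ) ≤ Fintype.card F := by exact_mod_cast hn
      have a2 := mul_le_mul_of_nonneg_left a1
        (mul_nonneg (wt_pos (F := F)).le (Nat.cast_nonneg (Fintype.card F)))
      nlinarith [wt_mul (F := F)]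
    have e4 : 0 ≤ ∑ x, ‖a x‖ ^ 2 := by positivity
    rw [e1]
    refine (mul_le_mul_of_nonneg_left (add_le_add f1 f2) wt_pos.le).trans ?_
    rw [← mul_add, ← e2, ← mul_assoc]
    exact mul_le_mul_of_nonneg_right e3 e4

theorem pr_nonneg (j : ℕ) (x : Fin n → F) : 0 ≤ pr F n j x := by
  induction j generalizing x with
  | zero => simp only [pr]; positivity
  | succ j ih => exact sum_nonneg fun p _ => mul_nonneg wt_pos.le (ih _)

theorem sum_pr (j : ℕ) : ∑ x, pr F n j x = 1 := by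
  induction j with
  | zero => simp [pr]
  | succ j ih =>
    simp only [pr]
    rw [sum_comm]
    simp only [← mul_sum, sum_shift (pr F n j), ih]
    rw [mul_sum]
    exact sum_wt _

theorem Rep.step {j : ℕ} {c : F → F} {x : Fin n → F} {p : F × F} (h : Rep j c (x + gen n p)) :
    Rep (j + 1) (c - Pi.single p.1 p.2) x := by
  refine ⟨le_trans (Set.ncard_le_ncard (t := insert p.1 (Function.support c)) fun a ha => ?_)
    ((Set.ncard_insert_le _ _).trans (by linarith [h.1])), fun i => ?_⟩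
  · by_contra hn
    simp only [Set.mem_insert_iff, Function.mem_support, not_or, not_not] at hn
    exact ha (by simp [hn.1, hn.2])
  · have := h.2 i
    simp only [Pi.add_apply, gen] at this
    simp [sub_mul, Pi.single_apply, ← this]

theorem pr_rep (j : ℕ) (x : Fin n → F) (hx : pr F n j x ≠ 0) : ∃ c, Rep j c x := by
  induction j generalizing x with
  | zero =>
    have : x = 0 := by_contra fun e => hx (by simp [pr, e])
    exact ⟨0, by simp, by simp [this]⟩
  | succ j ih =>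
    obtain ⟨p, -, hp⟩ := exists_ne_zero_of_sum_ne_zero hx
    obtain ⟨c, hc⟩ := ih _ (right_ne_zero_of_mul hp)
    exact ⟨_, hc.step⟩

theorem Sgn.exists_sign (h : Sgn ψ) {J : ℕ} (hJ : 2 * J ≤ n) : ∃ σ : (Fin n → F) → ℝ,
    (∀ x, |σ x| = 1) ∧ ∀ j < J, ∀ (x : Fin n → F) (p : F × F), pr F n j (x + gen n p) ≠ 0 →
      ψ (p.2 * p.1 ^ n) * σ (x + gen n p) = σ x := by
  classical
  let σ : (Fin n → F) → ℝ := fun x =>
    ψ (if e : ∃ c, Rep J c x then ∑ a, e.choose a * a ^ n else 0)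
  have key : ∀ x c, Rep J c x → σ x = ψ (∑ a, c a * a ^ n) := fun x c hc => by
    have e : ∃ c, Rep J c x := ⟨c, hc⟩
    have h1 := e.choose_spec
    have h2 : e.choose - c = 0 := vander (n := n) _ (le_trans (Set.ncard_le_ncard
      (t := Function.support e.choose ∪ Function.support c) (Function.support_sub _ _))
      ((Set.ncard_union_le _ _).trans (by linarith [h1.1, hc.1]))) fun i => by
        simp only [Pi.sub_apply, sub_mul, sum_sub_distrib, ← h1.2 i, ← hc.2 i, sub_self]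
    simp only [σ, dif_pos e, sub_eq_zero.1 h2]
  refine ⟨σ, fun x => h.abs_eq _, fun j hj x p hp => ?_⟩
  obtain ⟨c, hc⟩ := pr_rep j _ hp
  rw [key _ c ⟨hc.1.trans hj.le, hc.2⟩, key x _ ⟨hc.step.1.trans hj, hc.step.2⟩, ← h.add]
  congr 1
  have := h.two (p.2 * p.1 ^ n)
  simp only [Pi.sub_apply, sub_mul, sum_sub_distrib, Pi.single_apply, ite_mul, zero_mul,
    sum_ite_eq', mem_univ, if_true]
  linear_combination this

theorem Sgn.expand (h : Sgn ψ) (hn : 2 * n ≤ Fintype.card F) (A : Finset (Fin n → F))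
    (hA : 2 * A.card = Fintype.card (Fin n → F)) :
    (Fintype.card (Fin n → F) : ℝ) / 8 ≤
      ∑ x ∈ Aᶜ, ∑ p : F × F, wt F * if x + gen n p ∈ A then 1 else 0 := by
  let f : (Fin n → F) → ℝ := fun x => 2 * (if x ∈ A then 1 else 0) - 1
  have f0 : ∑ x, f x = 0 := by
    have : (2 * A.card : ℝ) = Fintype.card (Fin n → F) := by exact_mod_cast hA
    simp only [f, sum_sub_distrib, ← mul_sum, sum_ite_mem, univ_inter, sum_const, nsmul_eq_mul,
      card_univ]
    linarith
  have f1 : ∑ x, f x ^ 2 = Fintype.card (Fin n → F) := by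
    rw [sum_congr rfl (g := fun _ => 1) fun x _ => by simp only [f]; split_ifs <;> norm_num]
    simp
  have f2 := h.form (n := n) 0 f fun _ => f0
  simp only [zero_mul, mul_zero, h.zero, one_mul, f1] at f2
  have e1 : ∑ x ∈ Aᶜ, ∑ p : F × F, wt F * (if x + gen n p ∈ A then 1 else 0) =
      ∑ x, ∑ p : F × F, wt F * ((1 - f x + f (x + gen n p) - f x * f (x + gen n p)) / 4) := by
    rw [← sum_add_sum_compl A, sum_eq_zero (s := A) fun x hx => sum_eq_zero fun p _ => by
      simp only [f, if_pos hx]; ring, zero_add]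
    refine sum_congr rfl fun x hx => sum_congr rfl fun p _ => ?_
    simp only [f, if_neg (mem_compl.1 hx)]
    ring
  have e2 : ∀ p : F × F, ∑ x, wt F * ((1 - f x + f (x + gen n p) - f x * f (x + gen n p)) / 4) =
      wt F * (Fintype.card (Fin n → F) / 4) - wt F / 4 * ∑ x, f x * f (x + gen n p) := fun p => by
    rw [← mul_sum, ← sum_div, sum_sub_distrib, sum_add_distrib, sum_sub_distrib, sum_shift f, f0]
    simp only [sum_const, card_univ, nsmul_eq_mul]
    ring
  rw [e1, sum_comm]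
  simp only [e2]
  rw [sum_sub_distrib, sum_wt, ← mul_sum, sum_comm]
  simp only [← mul_sum]
  have a1 : (2 * n : ℝ) ≤ Fintype.card F := by exact_mod_cast hn
  have a2 := mul_le_mul_of_nonneg_left a1
    (mul_nonneg (wt_pos (F := F)).le (Nat.cast_nonneg (Fintype.card F)))
  have a3 : wt F * (Fintype.card F * n) ≤ 1 / 2 := by nlinarith [wt_mul (F := F)]
  have a4 := mul_le_mul_of_nonneg_left f2 (wt_pos (F := F)).le
  have a5 := mul_le_mul_of_nonneg_right a3 (Nat.cast_nonneg (Fintype.card (Fin n → F)))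
  nlinarith

theorem Sgn.bad (h : Sgn ψ) (hn : 2 * n ≤ Fintype.card F) {m : ℕ} (hm : 2 * (16 * m + 8) ≤ n)
    (A : Finset (Fin n → F)) (hA : 2 * A.card = Fintype.card (Fin n → F)) :
    ∃ a : (Fin n → F) → 𝕜,
      m * N1 (a - Sop 𝕜 ψ n a) < N1 (cut A a - Sop 𝕜 ψ n (cut A a)) := by
  obtain ⟨σ, s1, s2⟩ := h.exists_sign hm
  set J := 16 * m + 8 with hJ
  let G : (Fin n → F) → ℝ := fun x => ∑ j ∈ range J, pr F n j x
  have G0 : ∀ x, 0 ≤ G x := fun x => sum_nonneg fun j _ => pr_nonneg j x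
  have G1 : ∑ x, G x = J := by
    rw [sum_comm]
    simp [sum_pr]
  have G2 : ∀ (x : Fin n → F) (p : F × F),
      ψ (p.2 * p.1 ^ n) * σ (x + gen n p) * G (x + gen n p) = σ x * G (x + gen n p) := fun x p => by
    by_cases e : G (x + gen n p) = 0
    · simp [e]
    · obtain ⟨j, hj, e⟩ := exists_ne_zero_of_sum_ne_zero e
      rw [s2 j (mem_range.1 hj) x p e]
  have G3 : ∀ x, G x - ∑ p : F × F, wt F * G (x + gen n p) = pr F n 0 x - pr F n J x := fun x => by
    rw [← sum_range_sub' (fun j => pr F n j x), sum_sub_distrib]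
    congr 1
    simp only [G, mul_sum]
    exact sum_comm
  have key : ∀ (β : (Fin n → F) → ℝ) (k x : Fin n → F),
      ‖((fun y => ((β y * (σ (y + k) * G (y + k)) : ℝ) : 𝕜)) -
        Sop 𝕜 ψ n fun y => ((β y * (σ (y + k) * G (y + k)) : ℝ) : 𝕜)) x‖ =
      |β x * G (x + k) - ∑ p : F × F, wt F * (β (x + gen n p) * G (x + k + gen n p))| := by
    intro β k x
    rw [Pi.sub_apply, Sop_apply]
    simp only [← RCLike.ofReal_mul, ← RCLike.ofReal_sum, ← RCLike.ofReal_sub, RCLike.norm_ofReal]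
    rw [← one_mul |β x * G (x + k) - _|, ← s1 (x + k), ← abs_mul, mul_sub]
    congr 2
    · ring
    · rw [mul_sum]
      refine sum_congr rfl fun p _ => ?_
      rw [add_right_comm x (gen n p) k]
      linear_combination (wt F * β (x + gen n p)) * G2 (x + k) p
  let D : (Fin n → F) → ℝ := fun k => ∑ x ∈ Aᶜ, ∑ p : F × F,
    wt F * ((if x + gen n p ∈ A then 1 else 0) * G (x + k + gen n p))
  have D1 : ∑ _k : Fin n → F, (J : ℝ) / 8 ≤ ∑ k, D k := by
    have e1 : ∑ k, D k = J * ∑ x ∈ Aᶜ, ∑ p : F × F, wt F * if x + gen n p ∈ A then 1 else 0 := by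
      rw [sum_comm, mul_sum]
      refine sum_congr rfl fun x _ => ?_
      rw [sum_comm, mul_sum]
      refine sum_congr rfl fun p _ => ?_
      simp only [← mul_sum, add_comm x, add_assoc, sum_shift G, G1]
      ring
    rw [e1, sum_const, card_univ, nsmul_eq_mul]
    have := mul_le_mul_of_nonneg_left (h.expand hn A hA) (Nat.cast_nonneg J)
    linarith
  obtain ⟨k, -, hk⟩ := exists_le_of_sum_le univ_nonempty D1
  refine ⟨fun y => ((1 * (σ (y + k) * G (y + k)) : ℝ) : 𝕜), ?_⟩
  have e1 : cut A (fun y => ((1 * (σ (y + k) * G (y + k)) : ℝ) : 𝕜)) =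
      fun y => (((if y ∈ A then 1 else 0) * (σ (y + k) * G (y + k)) : ℝ) : 𝕜) := by
    funext y
    simp only [cut]
    split_ifs <;> simp
  have u1 : N1 ((fun y => ((1 * (σ (y + k) * G (y + k)) : ℝ) : 𝕜)) -
      Sop 𝕜 ψ n fun y => ((1 * (σ (y + k) * G (y + k)) : ℝ) : 𝕜)) ≤ 2 := by
    simp only [N1, key (fun _ => 1) k]
    simp only [one_mul, G3]
    rw [sum_shift fun x => |pr F n 0 x - pr F n J x|]
    refine (sum_le_sum (g := fun x => pr F n 0 x + pr F n J x) fun x _ => ?_).trans ?_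
    · exact abs_le.2 ⟨by linarith [pr_nonneg 0 x], by linarith [pr_nonneg J x]⟩
    · rw [sum_add_distrib, sum_pr, sum_pr]
      norm_num
  rw [e1]
  refine (mul_le_mul_of_nonneg_left u1 (Nat.cast_nonneg m)).trans_lt (lt_of_lt_of_le ?_
    (hk.trans ?_))
  · rw [hJ]
    push_cast
    linarith
  · simp only [N1, key (fun y => if y ∈ A then 1 else 0) k]
    refine le_trans (sum_le_sum fun x hx => ?_)
      (sum_le_sum_of_subset_of_nonneg (subset_univ Aᶜ) fun _ _ _ => abs_nonneg _)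
    rw [if_neg (mem_compl.1 hx), zero_mul, zero_sub, abs_neg]
    exact le_abs_self _

theorem exists_block (m : ℕ) : ∃ (V : Type) (_ : Fintype V) (_ : DecidableEq V) (_ : Nonempty V)
    (S : (V → 𝕜) →ₗ[𝕜] (V → 𝕜)), Con S ∧ ∃ s ≤ Fintype.card V, ∀ A : Finset V, A.card = s →
      ∃ a : V → 𝕜, m * N1 (a - S a) < N1 (cut A a - S (cut A a)) := by
  classical
  obtain ⟨n, hn⟩ : ∃ n, n = 2 * (16 * m + 8) := ⟨_, rfl⟩
  let F := GaloisField 2 (2 * n)
  let _ : Fintype F := Fintype.ofFinite F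
  have hc : Fintype.card F = 2 ^ (2 * n) := by
    rw [← Nat.card_eq_fintype_card]
    exact GaloisField.card 2 (2 * n) (by omega)
  have two : ∀ x : F, x + x = 0 := CharTwo.add_self_eq_zero
  obtain ⟨χ, hχ⟩ := (AddChar.exists_apply_ne_zero (α := F) (a := 1)).2 one_ne_zero
  have h1 : ∀ x, χ x = 1 ∨ χ x = -1 := fun x =>
    mul_self_eq_one_iff.1 (by rw [← χ.map_add_eq_mul, two, χ.map_zero_eq_one])
  have h : Sgn fun x : F => (χ x).re := by
    refine ⟨fun x y => ?_, by simp, two, 1, by simp [(h1 1).resolve_left hχ]⟩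
    rw [χ.map_add_eq_mul]
    rcases h1 x with e | e <;> simp [e]
  have h2 : 2 * n ≤ Fintype.card F := hc ▸ Nat.lt_two_pow_self.le
  have h3 : 2 ∣ Fintype.card (Fin n → F) := by
    rw [Fintype.card_fun, Fintype.card_fin, hc]
    exact dvd_pow (dvd_pow_self 2 (by omega)) (by omega)
  exact ⟨Fin n → F, inferInstance, inferInstance, inferInstance, _, h.con h2,
    Fintype.card (Fin n → F) / 2, Nat.div_le_self _ _, fun A hA => h.bad h2 hn.ge A (by omega)⟩

end Pool.Agent.Lib.MP_a2b538_an.L1
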