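import Mathlib
import Pool.Agent.Lib.MP_a2b538_an.LP.Gen
import Pool.Agent.Lib.MP_a2b538_an.LP.Slots
import Pool.Agent.Lib.MP_a2b538_an.L1.Walk

namespace Pool.Agent.Lib.MP_a2b538_an.L1

open Finset Filter Topology

variable {𝕜 : Type} [RCLike 𝕜]

theorem exists_time {V J : Type} [Fintype V] (σ : ℕ ≃ J) (i : V → J) (hi : Function.Injective i)
    {s : ℕ} (hs : s ≤ Fintype.card V) : ∃ N, (univ.filter fun j => σ.symm (i j) < N).card = s := by
  classical
  have hex : ∃ N, s ≤ (univ.filter fun j => σ.symm (i j) < N).card :=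
    ⟨(univ.sup fun j => σ.symm (i j)) + 1, by
      rwa [filter_true_of_mem fun j hj => Nat.lt_succ_of_le (le_sup (f := fun j => σ.symm (i j)) hj)]⟩
  refine ⟨Nat.find hex, le_antisymm ?_ (Nat.find_spec hex)⟩
  rcases h : Nat.find hex with _ | N
  · simp
  · have h1 := Nat.find_min hex (show N < Nat.find hex by omega)
    have h2 : (univ.filter fun j => σ.symm (i j) < N + 1) ⊆
        (univ.filter fun j => σ.symm (i j) < N) ∪ univ.filter fun j => σ.symm (i j) = N :=
      fun j hj => by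
        simp only [mem_union, mem_filter, mem_univ, true_and] at hj ⊢
        omega
    have h3 : (univ.filter fun j => σ.symm (i j) = N).card ≤ 1 := card_le_one.2 fun a ha b hb =>
      hi (σ.symm.injective ((mem_filter.1 ha).2.trans (mem_filter.1 hb).2.symm))
    have := (card_le_card h2).trans (card_union_le _ _)
    omega

theorem exists_mod : ∃ (e : ℕ → lp (fun _ : ℕ => 𝕜) 1) (f : ℕ → lp (fun _ : ℕ => 𝕜) 1 →L[𝕜] 𝕜)
    (C : ℝ), LP.Mod e f C := by
  classical
  choose V i1 i2 i3 S hS s hs hb using fun m : ℕ => exists_block (𝕜 := 𝕜) m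
  choose R r1 r2 using fun m : ℕ => (hS m).inv
  obtain ⟨emb, res, s1, s2, s3, s4, s5⟩ := LP.exists_slots (𝕜 := 𝕜) 1 ENNReal.one_ne_top V (i3 0)
  simp only [ENNReal.toReal_one, LP.En, Real.rpow_one] at s3 s4
  let J := Σ b : ℕ × ℕ, V b.1
  let U : ∀ b : ℕ × ℕ, (V b.1 → 𝕜) →ₗ[𝕜] lp (fun _ : ℕ => 𝕜) 1 := fun b =>
    (emb b.1 b.2).comp (LinearMap.id - S b.1)
  have U0 : ∀ b a, U b a = emb b.1 b.2 (a - S b.1 a) := fun _ _ => rfl
  let e : J → lp (fun _ : ℕ => 𝕜) 1 := fun j => U j.1 (Pi.single j.2 1)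
  let f : J → lp (fun _ : ℕ => 𝕜) 1 →L[𝕜] 𝕜 := fun j =>
    (ContinuousLinearMap.proj j.2).comp ((R j.1.1).comp (res j.1.1 j.1.2))
  have f0 : ∀ (b : ℕ × ℕ) (v : V b.1) x, f ⟨b, v⟩ x = R b.1 (res b.1 b.2 x) v := fun _ _ _ => rfl
  have lin : ∀ (b : ℕ × ℕ) (a : V b.1 → 𝕜), ∑ v, a v • e ⟨b, v⟩ = U b a := fun b a => by
    simp only [e, ← map_smul]
    refine (map_sum (U b) (fun v => a v • Pi.single v 1) univ).symm.trans (congrArg _ ?_)
    funext j
    simp [Pi.single_apply]
  have n1 : ∀ (b : ℕ × ℕ) x, N1 (res b.1 b.2 x) ≤ ‖x‖ := fun b x => by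
    simpa [N1] using s3 {b} id Function.injective_id x
  have n2 : ∀ (b : ℕ × ℕ) v, ‖emb b.1 b.2 v‖ = N1 v := fun b v => by
    simpa [N1] using
      s4 {b} id Function.injective_id (Function.update (fun _ _ => 0) b.1 fun _ => v)
  have bi : ∀ j k : J, f j (e k) = if j = k then 1 else 0 := by
    rintro ⟨⟨m, n⟩, v⟩ ⟨⟨m', n'⟩, v'⟩
    rw [f0]
    simp only [e, U0]
    rcases eq_or_ne m m' with rfl | hm
    · rw [s1]
      rcases eq_or_ne n n' with rfl | hn
      · simp [r1, Pi.single_apply, J]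
      · rw [if_neg hn, if_neg fun h => hn (congrArg (fun j : J => j.1.2) h), map_zero,
          Pi.zero_apply]
    · rw [s2 _ _ _ _ _ hm, if_neg fun h => hm (congrArg (fun j : J => j.1.1) h), map_zero,
        Pi.zero_apply]
  have hM : LP.Mod e f 14 := by
    refine ⟨by norm_num, s5 _ fun m n v => ?_, bi, ?_, ?_, fun x A hA => ?_, fun σ M => ?_⟩
    · rw [← r2 m v, ← U0 (m, n), ← lin]
      exact Submodule.sum_mem _ fun j _ => Submodule.smul_mem _ _
        (Submodule.subset_span ⟨⟨(m, n), j⟩, rfl⟩)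
    · rintro ⟨b, v⟩
      have a1 : N1 (Pi.single v (1 : 𝕜) : V b.1 → 𝕜) = 1 := by
        simp [N1, Pi.single_apply, apply_ite]
      simp only [e, U0, n2]
      linarith [(hS b.1).up (Pi.single v 1)]
    · rintro ⟨b, v⟩ x
      have a1 := (hS b.1).co (R b.1 (res b.1 b.2 x)) v
      rw [r2] at a1
      rw [f0]
      linarith [n1 b x, norm_nonneg x]
    · let B : ∀ b : ℕ × ℕ, Finset (V b.1) := fun b => univ.filter fun v => (⟨b, v⟩ : J) ∈ A
      let a : ∀ m : ℕ, ℕ → V m → 𝕜 := fun m n => cut (B (m, n)) (R m (res m n x))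
      have e1 : ∑ j ∈ A, f j x • e j = ∑ b ∈ A.image Sigma.fst,
          emb b.1 (id b.2) (a b.1 b.2 - S b.1 (a b.1 b.2)) := by
        have hs : A ⊆ (A.image Sigma.fst).sigma fun _ => univ := fun j hj =>
          mem_sigma.2 ⟨mem_image_of_mem _ hj, mem_univ _⟩
        rw [sum_congr rfl (g := fun j => a j.1.1 j.1.2 j.2 • e j) fun j hj => by
            simp only [a, cut, B, mem_filter, mem_univ, true_and]
            rw [if_pos hj]
            rfl,
          sum_subset hs fun j _ hj => by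
            simp only [a, cut, B, mem_filter, mem_univ, true_and]
            rw [if_neg hj, zero_smul], sum_sigma]
        exact sum_congr rfl fun b _ => lin b (a b.1 b.2)
      rw [e1, s4 _ id Function.injective_id fun m n => a m n - S m (a m n)]
      refine le_trans (sum_le_sum fun b _ => ?_) (le_trans (mul_sum _ _ _).ge
        (mul_le_mul_of_nonneg_left (s3 (A.image Sigma.fst) id Function.injective_id x)
          (by norm_num)))
      have a1 := (hS b.1).gr (R b.1 (res b.1 b.2 x)) (B b) fun n hn k hk =>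
        hA ⟨b, n⟩ (mem_filter.1 hn).2 ⟨b, k⟩ fun h => hk (mem_filter.2 ⟨mem_univ _, h⟩)
      rw [r2] at a1
      exact a1
    · obtain ⟨m, hm⟩ := exists_nat_ge M
      obtain ⟨N, hN⟩ := exists_time σ (fun v : V m => (⟨(m, 0), v⟩ : J))
        (fun a b h => by simpa [J] using h) (hs m)
      obtain ⟨a, ha⟩ := hb m _ hN
      refine ⟨N, U (m, 0) a, ?_⟩
      have e1 : ∑ n ∈ range N, f (σ n) (U (m, 0) a) • e (σ n) =
          U (m, 0) (cut (univ.filter fun v => σ.symm (⟨(m, 0), v⟩ : J) < N) a) := by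
        rw [← lin (m, 0) a, ← lin (m, 0) (cut _ a)]
        simp only [map_sum, map_smul, bi, sum_smul]
        rw [sum_comm]
        refine sum_congr rfl fun v _ => ?_
        simp only [← σ.eq_symm_apply, smul_eq_mul, mul_ite, mul_one, mul_zero, ite_smul, zero_smul,
          sum_ite_eq', mem_range, cut, mem_filter, mem_univ, true_and, Equiv.apply_symm_apply]
      rw [e1, U0, U0, n2, n2]
      exact (mul_le_mul_of_nonneg_right hm (N1_nonneg _)).trans_lt ha
  have : Infinite J := Infinite.of_injective (fun n : ℕ => (⟨(0, n), (i3 0).some⟩ : J))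
    fun a b h => congrArg (fun j : J => j.1.2) h
  obtain ⟨σ⟩ : Nonempty (ℕ ≃ J) := nonempty_equiv_of_countable
  exact ⟨_, _, _, hM.reindex σ⟩

end Pool.Agent.Lib.MP_a2b538_an.L1
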